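import Mathlib

/-! # Odd numbers that are neither `2^k + p` nor explained by a covering system -/

namespace Pool.Agent.Results.MP_d59f78_nt.OutsideCoverings

/-- `n` is the sum of a power of two (exponent at least `0`) and a prime. -/
def Representable (n : ℕ) : Prop :=
  ∃ k p : ℕ, p.Prime ∧ n = 2 ^ k + p

/-- There is a finite set `Q` of primes such that for every `k` some `q` in `Q` divides the
integer `n - 2^k`. -/
def Covered (n : ℕ) : Prop :=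
  ∃ Q : Finset ℕ, (∀ q ∈ Q, q.Prime) ∧ ∀ k : ℕ, ∃ q ∈ Q, (q : ℤ) ∣ (n : ℤ) - 2 ^ k

theorem not_covered (m : ℕ) : ¬ Covered (2 ^ m - 1) := by
  rintro ⟨Q, hQ, h⟩
  obtain ⟨q, hq, hd⟩ := h m
  have h1 : ((2 ^ m - 1 : ℕ) : ℤ) - 2 ^ m = -1 := by
    have : 1 ≤ 2 ^ m := Nat.one_le_two_pow
    push_cast [Nat.cast_sub this]
    ring
  rw [h1] at hd
  have h2 : (q : ℤ) ∣ 1 := by
    have := (dvd_neg).mpr hd
    simpa using this
  have h3 : q ∣ 1 := by exact_mod_cast h2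
  exact (hQ q hq).one_lt.ne' (Nat.dvd_one.mp h3)

/-- The Fermat number `2^(2^s)+1` divides `2^j+1` when `2^s` exactly divides `j`. -/
theorem fermat_dvd {s t : ℕ} (ht : Odd t) : 2 ^ 2 ^ s + 1 ∣ 2 ^ (2 ^ s * t) + 1 := by
  have := Odd.nat_add_dvd_pow_add_pow (2 ^ 2 ^ s) 1 ht
  rwa [one_pow, ← pow_mul] at this

/-- The Fermat number `2^(2^s)+1` divides `2^(2^N)-1` when `s < N`. -/
theorem fermat_dvd' {s N : ℕ} (h : s < N) : ((2 : ℤ) ^ 2 ^ s + 1) ∣ 2 ^ 2 ^ N - 1 := by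
  have h1 : ((2 : ℤ) ^ 2 ^ s + 1) ∣ 2 ^ 2 ^ (s + 1) - 1 := by
    refine ⟨2 ^ 2 ^ s - 1, ?_⟩
    rw [pow_succ 2 s, pow_mul]
    ring
  refine h1.trans ?_
  obtain ⟨c, hc⟩ : 2 ^ (s + 1) ∣ 2 ^ N := pow_dvd_pow 2 h
  rw [hc, pow_mul]
  simpa using sub_dvd_pow_sub_pow ((2 : ℤ) ^ 2 ^ (s + 1)) 1 c

theorem not_representable {N : ℕ} (hN : 3 ≤ N) : ¬ Representable (2 ^ (2 ^ N - 1) - 1) := by
  rintro ⟨k, p, hp, h⟩
  set m := 2 ^ N - 1 with hm
  have hN8 : 8 ≤ 2 ^ N := by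
    calc 8 = 2 ^ 3 := by norm_num
      _ ≤ 2 ^ N := Nat.pow_le_pow_right (by norm_num) hN
  have hm7 : 7 ≤ m := by omega
  have hm1 : m + 1 = 2 ^ N := by omega
  have hpos : 1 ≤ 2 ^ m := Nat.one_le_two_pow
  have hkm : k < m := by
    by_contra hc
    have : 2 ^ m ≤ 2 ^ k := Nat.pow_le_pow_right (by norm_num) (by omega)
    omega
  -- the difference of the exponents
  obtain ⟨s, t, ht, hst⟩ := Nat.exists_eq_two_pow_mul_odd (n := m - k) (by omega)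
  have hsN : s < N := by
    have h1 : 2 ^ s ≤ m - k := by
      rw [hst]
      exact Nat.le_mul_of_pos_right _ ht.pos
    have h2 : 2 ^ s < 2 ^ N := by omega
    exact (Nat.pow_lt_pow_iff_right (by norm_num)).mp h2
  have hA := fermat_dvd' hsN
  have hB : ((2 : ℤ) ^ 2 ^ s + 1) ∣ 2 ^ (m - k) + 1 := by
    have := fermat_dvd (s := s) ht
    rw [← hst] at this
    exact_mod_cast this
  have hcop : IsCoprime ((2 : ℤ) ^ 2 ^ s + 1) (2 ^ (m - k)) := by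
    apply IsCoprime.pow_right
    refine ⟨1, -(2 ^ (2 ^ s - 1)), ?_⟩
    have : (2 : ℤ) ^ 2 ^ s = 2 ^ (2 ^ s - 1) * 2 := by
      rw [← pow_succ]
      congr 1
      have : 0 < 2 ^ s := by positivity
      omega
    rw [this]
    ring
  have hC : ((2 : ℤ) ^ 2 ^ s + 1) ∣ 2 ^ (k + 1) + 1 := by
    apply hcop.dvd_of_dvd_mul_right
    have : ((2 : ℤ) ^ (k + 1) + 1) * 2 ^ (m - k) = (2 ^ 2 ^ N - 1) + (2 ^ (m - k) + 1) := by
      rw [add_mul, ← pow_add, show k + 1 + (m - k) = 2 ^ N by omega]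
      ring
    rw [this]
    exact dvd_add hA hB
  have hD : ((2 : ℤ) ^ 2 ^ s + 1) ∣ 2 * (p : ℤ) := by
    have hp' : (p : ℤ) = 2 ^ m - 1 - 2 ^ k := by
      have h' : ((2 ^ m - 1 : ℕ) : ℤ) = ((2 ^ k + p : ℕ) : ℤ) := by rw [h]
      push_cast [Nat.cast_sub hpos] at h'
      linarith
    have : 2 * (p : ℤ) = (2 ^ 2 ^ N - 1) - (2 ^ (k + 1) + 1) := by
      rw [hp', ← hm1]
      ring
    rw [this]
    exact dvd_sub hA hC
  have hE : 2 ^ 2 ^ s + 1 ∣ 2 * p := by exact_mod_cast hD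
  have hodd : Nat.Coprime (2 ^ 2 ^ s + 1) 2 := by
    rw [Nat.coprime_comm, Nat.Prime.coprime_iff_not_dvd Nat.prime_two]
    have h0 : 2 ∣ 2 ^ 2 ^ s := dvd_pow_self 2 (by positivity)
    omega
  have hF : 2 ^ 2 ^ s + 1 ∣ p := hodd.dvd_of_dvd_mul_left hE
  have hne : 2 ^ 2 ^ s + 1 ≠ 1 := by
    have : 0 < 2 ^ 2 ^ s := by positivity
    omega
  have hG : 2 ^ 2 ^ s + 1 = p := ((Nat.dvd_prime hp).mp hF).resolve_left hne
  -- finish: `2^m = 2^k + 2^(2^s) + 2` is impossible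
  have hH : 2 ^ m = 2 ^ k + 2 ^ 2 ^ s + 2 := by omega
  clear_value m
  obtain ⟨c, rfl⟩ : ∃ c, m = c + 7 := ⟨m - 7, by omega⟩
  have h128 : 2 ^ (c + 7) = 128 * 2 ^ c := by ring
  have hc1 : 1 ≤ 2 ^ c := Nat.one_le_two_pow
  -- an even power of two below is `2` or a multiple of `4`
  have key : ∀ a : ℕ, 2 ^ a = 1 ∨ 2 ^ a = 2 ∨ (∃ b, 2 ^ a = 4 * 2 ^ b) := by
    intro a
    rcases a with _ | _ | a
    · exact Or.inl rfl
    · exact Or.inr (Or.inl rfl)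
    · exact Or.inr (Or.inr ⟨a, by ring⟩)
  have key2 : ∀ a : ℕ, 2 ^ a + 4 ≠ 2 ^ (c + 7) := by
    intro a ha
    rcases Nat.lt_or_ge a 3 with h3 | h3
    · interval_cases a <;> omega
    · obtain ⟨b, rfl⟩ := Nat.exists_eq_add_of_le h3
      have : 2 ^ (3 + b) = 8 * 2 ^ b := by ring
      omega
  have hpow2 : 2 ^ 2 ^ s ≠ 1 := by
    have : 2 ^ 1 ≤ 2 ^ 2 ^ s := Nat.pow_le_pow_right (by norm_num) Nat.one_le_two_pow
    omega
  rcases key k with h1 | h1 | ⟨b, hb⟩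
  · have h2 : 2 ∣ 2 ^ 2 ^ s := dvd_pow_self 2 (by positivity)
    omega
  · exact key2 (2 ^ s) (by omega)
  · rcases key (2 ^ s) with h2 | h2 | ⟨b', hb'⟩
    · exact hpow2 h2
    · exact key2 k (by omega)
    · omega

theorem main {N : ℕ} (hN : 3 ≤ N) : Odd (2 ^ (2 ^ N - 1) - 1) ∧ 3 ≤ 2 ^ (2 ^ N - 1) - 1 ∧
    ¬ Representable (2 ^ (2 ^ N - 1) - 1) ∧ ¬ Covered (2 ^ (2 ^ N - 1) - 1) := by
  have hN8 : 8 ≤ 2 ^ N := by
    calc 8 = 2 ^ 3 := by norm_num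
      _ ≤ 2 ^ N := Nat.pow_le_pow_right (by norm_num) hN
  have h128 : 2 ^ 7 ≤ 2 ^ (2 ^ N - 1) := Nat.pow_le_pow_right (by norm_num) (by omega)
  refine ⟨?_, by omega, not_representable hN, not_covered _⟩
  have h2 : 2 ∣ 2 ^ (2 ^ N - 1) := dvd_pow_self 2 (by omega)
  rw [Nat.odd_iff]
  omega

/-- There are infinitely many odd `n ≥ 3` that are neither representable nor covered
(for instance `2 ^ (2 ^ N - 1) - 1` for every `N ≥ 3`). -/
theorem result : {n : ℕ | Odd n ∧ 3 ≤ n ∧ ¬ Representable n ∧ ¬ Covered n}.Infinite := by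
  apply Set.infinite_of_not_bddAbove
  rintro ⟨B, hB⟩
  have h1 : B < 2 ^ (2 ^ (B + 3) - 1) - 1 := by
    have h2 : B + 3 < 2 ^ (B + 3) := Nat.lt_two_pow_self
    have h3 : 2 ^ (B + 3) - 1 < 2 ^ (2 ^ (B + 3) - 1) := Nat.lt_two_pow_self
    omega
  exact absurd (hB (main (N := B + 3) (by omega))) (by omega)

end Pool.Agent.Results.MP_d59f78_nt.OutsideCoverings
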